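import Pool.Agent.H17.RX.Stm

/-! Part TW of project RX: the global task `w`. -/

set_option autoImplicit false
open Filter Topology MeasureTheory
open scoped ComplexConjugate ENNReal

namespace H18.RX

open Pool.Agent.H17.RX

theorem HH_summable {d : ℕ → ℕ} (x : HH d) : Summable (fun k => ‖x k‖ ^ 2) := by
  have h := (lp.memℓp x).summable (by norm_num)
  simpa using h

theorem HH_sum_le {d : ℕ → ℕ} (x : HH d) (s : Finset ℕ) : ∑ l ∈ s, ‖x l‖ ^ 2 ≤ ‖x‖ ^ 2 := by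
  have h := lp.sum_rpow_le_norm_rpow (by norm_num : 0 < (2:ℝ≥0∞).toReal) x s
  simpa using h

theorem HH_norm_le {d : ℕ → ℕ} (x : HH d) (C : ℝ) (hC : 0 ≤ C)
    (h : ∀ s : Finset ℕ, ∑ l ∈ s, ‖x l‖ ^ 2 ≤ C ^ 2) : ‖x‖ ≤ C := by
  apply lp.norm_le_of_forall_sum_le (by norm_num : 0 < (2:ℝ≥0∞).toReal) hC
  intro s
  simpa using h s

theorem exists_diag (d : ℕ → ℕ) (Q : ∀ k, F (d k) →L[ℂ] F (d k)) (hQ : ∀ k, ‖Q k‖ ≤ 1) :
    ∃ T : HH d →L[ℂ] HH d, ∀ (x : HH d) (k : ℕ), (T x) k = Q k (x k) := by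
  have hb : ∀ k (y : F (d k)), ‖Q k y‖ ≤ ‖y‖ := fun k y => by
    calc _ ≤ ‖Q k‖ * ‖y‖ := (Q k).le_opNorm y
      _ ≤ 1 * ‖y‖ := mul_le_mul_of_nonneg_right (hQ k) (norm_nonneg _)
      _ = _ := one_mul _
  have hmem : ∀ x : HH d, Memℓp (fun k => Q k (x k)) 2 := by
    intro x
    apply memℓp_gen
    refine Summable.of_nonneg_of_le (fun k => by positivity) (fun k => ?_)
      ((lp.memℓp x).summable (by norm_num))
    exact Real.rpow_le_rpow (norm_nonneg _) (hb k _) (by norm_num)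
  let L : HH d →ₗ[ℂ] HH d :=
    { toFun := fun x => ⟨fun k => Q k (x k), hmem x⟩
      map_add' := by
        intro x y
        apply lp.ext
        funext k
        show Q k ((x + y : HH d) k) = Q k (x k) + Q k (y k)
        rw [← map_add]
        rfl
      map_smul' := by
        intro c x
        apply lp.ext
        funext k
        show Q k ((c • x : HH d) k) = c • Q k (x k)
        rw [← map_smul]
        rfl }
  have hL : ∀ x, ‖L x‖ ≤ 1 * ‖x‖ := by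
    intro x
    rw [one_mul]
    apply HH_norm_le _ _ (norm_nonneg _)
    intro s
    refine le_trans (Finset.sum_le_sum fun l _ => ?_) (HH_sum_le x s)
    exact pow_le_pow_left₀ (norm_nonneg _) (hb l _) 2
  exact ⟨L.mkContinuous 1 hL, fun x k => rfl⟩

theorem chi_norm (a : ZMod 4) : ‖chi a‖ = 1 := by
  unfold chi
  rw [norm_pow, Complex.norm_I, one_pow]

theorem zz_norm {n : ℕ} (hn : n ≠ 0) (θ : Th n) : ‖zz θ‖ = 1 := by
  have h : ‖zz θ‖ ^ 2 = 1 := by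
    rw [EuclideanSpace.norm_sq_eq]
    have h1 : ∀ j : Fin n, ‖(zz θ) j‖ ^ 2 = (n : ℝ)⁻¹ := by
      intro j
      show ‖((Real.sqrt n : ℝ) : ℂ)⁻¹ * chi (θ j)‖ ^ 2 = _
      rw [norm_mul, chi_norm, mul_one, norm_inv, Complex.norm_real, inv_pow, Real.norm_eq_abs,
        sq_abs, Real.sq_sqrt (Nat.cast_nonneg _)]
    rw [Finset.sum_congr rfl fun j _ => h1 j, Finset.sum_const, Finset.card_univ, Fintype.card_fin,
      nsmul_eq_mul, mul_inv_cancel₀ (Nat.cast_ne_zero.mpr hn)]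
  have h2 : (0:ℝ) ≤ ‖zz θ‖ := norm_nonneg _
  nlinarith

/-- `‖v - ⟪z,v⟫ z‖ ≤ ‖v‖` and orthogonality for a unit vector -/
theorem proj_unit {n : ℕ} (z v : F n) (hz : ‖z‖ = 1) :
    ‖v - inner ℂ z v • z‖ ≤ ‖v‖ ∧ inner ℂ z (v - inner ℂ z v • z) = 0 := by
  have h0 : inner ℂ z (v - inner ℂ z v • z) = 0 := by
    rw [inner_sub_right, inner_smul_right, inner_self_eq_norm_sq_to_K, hz]
    simp
  refine ⟨?_, h0⟩
  have h1 : ‖v‖ * ‖v‖ = ‖inner ℂ z v • z‖ * ‖inner ℂ z v • z‖ +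
      ‖v - inner ℂ z v • z‖ * ‖v - inner ℂ z v • z‖ := by
    have h2 : inner ℂ (inner ℂ z v • z) (v - inner ℂ z v • z) = 0 := by
      rw [inner_smul_left, h0, mul_zero]
    have h3 := norm_add_sq_eq_norm_sq_add_norm_sq_of_inner_eq_zero _ _ h2
    rw [add_sub_cancel] at h3
    exact h3
  nlinarith [norm_nonneg v, norm_nonneg (v - inner ℂ z v • z), norm_nonneg (inner ℂ z v • z)]

theorem proj_zz {n : ℕ} (θ : Th n) (v : F n) :
    ‖v - inner ℂ (zz θ) v • zz θ‖ ≤ ‖v‖ ∧ inner ℂ (zz θ) (v - inner ℂ (zz θ) v • zz θ) = 0 := by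
  by_cases hn : n = 0
  · subst hn
    have h : ∀ y : F 0, y = 0 := fun y => Subsingleton.elim _ _
    rw [h (v - inner ℂ (zz θ) v • zz θ)]
    simp
  · exact proj_unit _ _ (zz_norm hn θ)

theorem per_block (d : ℕ → ℕ) (v : (Σ k, Th (d k)) → HH d) (hv : ∀ i, ‖v i‖ ≤ 1) (k j : ℕ)
    (D : Finset (Th (d k))) (hB : Big (1 / ((k : ℝ) + 1)) (Nc k) (d k) (j + 1) D) :
    ∃ (C' : Finset (Th (d k))) (Q : F (d k) →L[ℂ] F (d k)) (μ : ℕ → ℝ), C' ⊆ D ∧
      Big (1 / ((k : ℝ) + 1)) (Nc k) (d k) j C' ∧ ‖Q‖ ≤ 1 ∧ (∀ l, 0 ≤ μ l) ∧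
      ∀ θ ∈ C', ‖Q (v ⟨k, θ⟩ k) - inner ℂ (zz θ) (v ⟨k, θ⟩ k) • zz θ‖ ≤ 1 / ((k : ℝ) + 1) ∧
        ∀ l < k, μ l ≤ ‖v ⟨k, θ⟩ l‖ ^ 2 ∧ ‖v ⟨k, θ⟩ l‖ ^ 2 ≤ μ l + 1 / ((k : ℝ) + 1) ^ 2 := by
  classical
  let w : Th (d k) → F (d k) := fun θ => v ⟨k, θ⟩ k - inner ℂ (zz θ) (v ⟨k, θ⟩ k) • zz θ
  have hvk : ∀ θ l, ‖v ⟨k, θ⟩ l‖ ≤ 1 := fun θ l =>
    (lp.norm_apply_le_norm (by norm_num) _ _).trans (hv _)
  have hvk2 : ∀ θ l, ‖v ⟨k, θ⟩ l‖ ^ 2 ≤ 1 := fun θ l => pow_le_one₀ (norm_nonneg _) (hvk θ l)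
  have hk0 : (0 : ℝ) < (k : ℝ) + 1 := by positivity
  have hw1 : ∀ θ, ‖w θ‖ ≤ 1 := fun θ => (proj_zz θ _).1.trans (hvk θ k)
  have hw2 : ∀ θ, inner ℂ (zz θ) (w θ) = 0 := fun θ => (proj_zz θ _).2
  have hfl : ∀ (θ : Th (d k)) (l : ℕ),
      ⌊((k : ℝ) + 1) ^ 2 * ‖v ⟨k, θ⟩ l‖ ^ 2⌋₊ < (k + 1) ^ 2 + 1 := by
    intro θ l
    rw [Nat.lt_succ_iff]
    have h1 : ((k : ℝ) + 1) ^ 2 * ‖v ⟨k, θ⟩ l‖ ^ 2 ≤ (((k + 1) ^ 2 : ℕ) : ℝ) := by
      push_cast
      have := hvk2 θ l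
      nlinarith [sq_nonneg ((k : ℝ) + 1)]
    calc _ ≤ ⌊(((k + 1) ^ 2 : ℕ) : ℝ)⌋₊ := Nat.floor_le_floor h1
      _ = (k + 1) ^ 2 := Nat.floor_natCast _
  let c : Th (d k) → Fin (Nc k) := fun θ => finFunctionFinEquiv (fun l : Fin k =>
    (⟨⌊((k : ℝ) + 1) ^ 2 * ‖v ⟨k, θ⟩ l‖ ^ 2⌋₊, hfl θ l⟩ : Fin ((k + 1) ^ 2 + 1)))
  obtain ⟨C', hC', hB', ⟨Q, hQ1, hQ2, hQ3⟩, -, a, ha⟩ := hB w 0 c hw1 hw2 (by simp)
  obtain ⟨a', ha'⟩ := finFunctionFinEquiv.surjective (show Fin (((k + 1) ^ 2 + 1) ^ k) from a)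
  have hfa : ∀ θ ∈ C', ∀ l : Fin k, ⌊((k : ℝ) + 1) ^ 2 * ‖v ⟨k, θ⟩ l‖ ^ 2⌋₊ = (a' l : ℕ) := by
    intro θ hθ l
    have h1 : finFunctionFinEquiv (fun l : Fin k =>
      (⟨⌊((k : ℝ) + 1) ^ 2 * ‖v ⟨k, θ⟩ l‖ ^ 2⌋₊, hfl θ l⟩ : Fin ((k + 1) ^ 2 + 1))) =
        finFunctionFinEquiv a' := (ha θ hθ).trans ha'.symm
    have h2 := finFunctionFinEquiv.injective h1
    have h3 := congrFun h2 l
    rw [← h3]
  refine ⟨C', Q, fun l => if h : l < k then ((a' ⟨l, h⟩ : ℕ) : ℝ) / ((k : ℝ) + 1) ^ 2 else 0,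
    hC', hB', hQ1, ?_, ?_⟩
  · intro l
    dsimp only
    split_ifs
    · positivity
    · exact le_rfl
  · intro θ hθ
    constructor
    · have h1 : Q (v ⟨k, θ⟩ k) - inner ℂ (zz θ) (v ⟨k, θ⟩ k) • zz θ = Q (w θ) := by
        show _ = Q (v ⟨k, θ⟩ k - inner ℂ (zz θ) (v ⟨k, θ⟩ k) • zz θ)
        rw [map_sub, map_smul, hQ2 θ hθ]
      rw [h1]
      exact hQ3 θ hθ
    · intro l hl
      dsimp only
      rw [dif_pos hl]
      have h1 := hfa θ hθ ⟨l, hl⟩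
      dsimp only at h1
      rw [← h1]
      have h2 : (0 : ℝ) ≤ ((k : ℝ) + 1) ^ 2 * ‖v ⟨k, θ⟩ l‖ ^ 2 := by positivity
      have h3 := Nat.floor_le h2
      have h4 := Nat.lt_floor_add_one (((k : ℝ) + 1) ^ 2 * ‖v ⟨k, θ⟩ l‖ ^ 2)
      have h5 : (0 : ℝ) < ((k : ℝ) + 1) ^ 2 := by positivity
      constructor
      · rw [div_le_iff₀ h5]
        linarith
      · rw [← add_div, le_div_iff₀ h5]
        linarith

theorem big_anti (hMON : S_MON) {ε : ℝ} {N d : ℕ} (hN : 1 ≤ N) (hε : 0 < ε)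
    (C : Finset (Th d)) {m m' : ℕ} (h : m' ≤ m) (hB : Big ε N d m C) : Big ε N d m' C := by
  induction m, h using Nat.le_induction with
  | base => exact hB
  | succ m hm ih => exact ih ((hMON ε N d hN hε).2 m C hB)

theorem t_TW (hMON : S_MON) (hTHIN : S_THIN) : S_TW := by
  classical
  intro d C hC v hv ε hε
  have hNc : ∀ k, 1 ≤ Nc k := fun k => by
    unfold Nc
    exact Nat.one_le_pow _ _ (Nat.succ_pos _)
  have hek : ∀ k : ℕ, (0 : ℝ) < 1 / ((k : ℝ) + 1) := fun k => by positivity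
  obtain ⟨K0, hK0⟩ : ∃ K0 : ℕ, 4 / ε ^ 2 ≤ (K0 : ℝ) := exists_nat_ge _
  have hfr : ∀ j : ℕ, ∃ᶠ k : ℕ in atTop,
      Big (1 / ((k : ℝ) + 1)) (Nc k) (d k) (j + 1) (C k) ∧ K0 ≤ k := by
    intro j
    exact (hC (j + 1)).and_eventually (eventually_ge_atTop K0)
  obtain ⟨κ, hκ, hP⟩ := Filter.extraction_forall_of_frequently hfr
  have hL : ∀ k, ∃ L : ℕ, ∀ θ : Th (d k), ∀ s : Finset ℕ, (∀ l ∈ s, L ≤ l) →
      ∑ l ∈ s, ‖v ⟨k, θ⟩ l‖ ^ 2 ≤ ε ^ 2 / 4 := by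
    intro k
    have h1 : ∀ θ : Th (d k), ∃ L : ℕ, ∀ s : Finset ℕ, (∀ l ∈ s, L ≤ l) →
        ∑ l ∈ s, ‖v ⟨k, θ⟩ l‖ ^ 2 ≤ ε ^ 2 / 4 := by
      intro θ
      obtain ⟨s, hs⟩ := summable_iff_vanishing_norm.mp (HH_summable (v ⟨k, θ⟩)) (ε ^ 2 / 4)
        (by positivity)
      refine ⟨s.sup id + 1, fun t ht => ?_⟩
      have h2 := hs t (by
        rw [Finset.disjoint_left]
        intro l hl hl'
        have h3 := ht l hl
        have h4 : l ≤ s.sup id := Finset.le_sup (f := id) hl'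
        omega)
      rw [Real.norm_eq_abs] at h2
      exact ((le_abs_self _).trans_lt h2).le
    choose L hL using h1
    refine ⟨Finset.univ.sup L, fun θ s hs => hL θ s fun l hl => ?_⟩
    exact (Finset.le_sup (f := L) (Finset.mem_univ θ)).trans (hs l hl)
  choose L hL using hL
  have hblk : ∀ k, ∃ (C' : Finset (Th (d k))) (Q : F (d k) →L[ℂ] F (d k)) (μ : ℕ → ℝ),
      C' ⊆ C k ∧ ‖Q‖ ≤ 1 ∧ (∀ l, 0 ≤ μ l) ∧
      (∀ θ ∈ C', ‖Q (v ⟨k, θ⟩ k) - inner ℂ (zz θ) (v ⟨k, θ⟩ k) • zz θ‖ ≤ 1 / ((k : ℝ) + 1) ∧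
        ∀ l < k, μ l ≤ ‖v ⟨k, θ⟩ l‖ ^ 2 ∧ ‖v ⟨k, θ⟩ l‖ ^ 2 ≤ μ l + 1 / ((k : ℝ) + 1) ^ 2) ∧
      ∀ j, κ j = k → Big (1 / ((k : ℝ) + 1)) (Nc k) (d k) j C' := by
    intro k
    by_cases hk : ∃ j, κ j = k
    · obtain ⟨j, rfl⟩ := hk
      obtain ⟨C', Q, μ, h1, h2, h3, h4, h5⟩ := per_block d v hv (κ j) j (C (κ j)) (hP j).1
      refine ⟨C', Q, μ, h1, h3, h4, h5, fun j' hj' => ?_⟩
      rw [hκ.injective hj']
      exact h2
    · exact ⟨∅, 0, 0, by simp, by simp, by simp, by simp, fun j hj => absurd ⟨j, hj⟩ hk⟩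
  choose D Q μ hDC hQ hμ0 hμ hDB using hblk
  have hsum : ∀ k ∈ Set.range κ, ∑ l ∈ Finset.range k, μ k l ≤ 1 := by
    rintro _ ⟨j, rfl⟩
    have h1 : Big (1 / ((κ j : ℝ) + 1)) (Nc (κ j)) (d (κ j)) 0 (D (κ j)) :=
      big_anti hMON (hNc _) (hek _) _ (Nat.zero_le j) (hDB (κ j) j rfl)
    obtain ⟨θ, hθ⟩ : (D (κ j)).Nonempty := h1
    calc ∑ l ∈ Finset.range (κ j), μ (κ j) l
        ≤ ∑ l ∈ Finset.range (κ j), ‖v ⟨κ j, θ⟩ l‖ ^ 2 :=
          Finset.sum_le_sum fun l hl => ((hμ (κ j) θ hθ).2 l (Finset.mem_range.mp hl)).1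
      _ ≤ ‖v ⟨κ j, θ⟩‖ ^ 2 := HH_sum_le _ _
      _ ≤ 1 := pow_le_one₀ (norm_nonneg _) (hv _)
  obtain ⟨a, ha, haA, haL, haμ⟩ := hTHIN (Set.range κ) (Set.infinite_range_of_injective hκ.injective)
    μ hμ0 hsum L (ε ^ 2 / 4) (by positivity)
  choose σ hσ using haA
  have hσm : StrictMono σ := by
    intro i j hij
    have h1 := ha hij
    rw [← hσ i, ← hσ j] at h1
    exact hκ.lt_iff_lt.mp h1
  let C' : ∀ k, Finset (Th (d k)) := fun k => if k ∈ Set.range a then D k else ∅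
  let Q' : ∀ k, F (d k) →L[ℂ] F (d k) := fun k => if k ∈ Set.range a then Q k else 0
  have hQ' : ∀ k, ‖Q' k‖ ≤ 1 := by
    intro k
    show ‖if k ∈ Set.range a then Q k else 0‖ ≤ 1
    split_ifs
    · exact hQ k
    · simp
  obtain ⟨T, hT⟩ := exists_diag d Q' hQ'
  refine ⟨C', ?_, ?_, T, ?_⟩
  · intro m
    rw [frequently_atTop]
    intro N
    refine ⟨a (max N m), (le_max_left N m).trans (ha.le_apply), ?_⟩
    have h1 : C' (a (max N m)) = D (a (max N m)) := if_pos ⟨_, rfl⟩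
    rw [h1]
    have h2 : m ≤ σ (max N m) := (le_max_right N m).trans hσm.le_apply
    exact big_anti hMON (hNc _) (hek _) _ h2 (hDB _ _ (hσ _))
  · refine Filter.Eventually.of_forall fun k => ?_
    show (if k ∈ Set.range a then D k else ∅) ⊆ C k
    split_ifs
    · exact hDC k
    · simp
  · intro k θ hθ
    have hk : k ∈ Set.range a := by
      by_contra hne
      have h1 : C' k = ∅ := if_neg hne
      rw [h1] at hθ
      simp at hθ
    have hθD : θ ∈ D k := by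
      have h1 : C' k = D k := if_pos hk
      rwa [h1] at hθ
    obtain ⟨j, hj⟩ := hk
    have hK0k : K0 ≤ k := by
      rw [← hj, ← hσ j]
      exact (hP _).2
    have hkr : 4 / ε ^ 2 ≤ (k : ℝ) + 1 := by
      have : (K0 : ℝ) ≤ k := by exact_mod_cast hK0k
      linarith
    have hkp : (0 : ℝ) < (k : ℝ) + 1 := by positivity
    have hk1 : 1 / ((k : ℝ) + 1) ≤ ε ^ 2 / 4 := by
      rw [div_le_iff₀ (by positivity)] at hkr
      rw [div_le_iff₀ hkp]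
      linarith
    have hjk : j ≤ k := by
      rw [← hj]
      exact ha.le_apply
    set x : HH d := v ⟨k, θ⟩ with hx
    set y : HH d := T x - inner ℂ (zg d ⟨k, θ⟩) x • zg d ⟨k, θ⟩ with hy
    have hin : inner ℂ (zg d ⟨k, θ⟩) x = inner ℂ (zz θ) (x k) := by
      unfold zg
      rw [lp.inner_single_left]
    have hyk : y k = Q k (x k) - inner ℂ (zz θ) (x k) • zz θ := by
      have h1 : y k = (T x) k - inner ℂ (zg d ⟨k, θ⟩) x • (zg d ⟨k, θ⟩ : HH d) k := rfl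
      rw [h1, hT, hin]
      have h2 : (zg d ⟨k, θ⟩ : HH d) k = zz θ := lp.single_apply_self _ _ _
      have h3 : Q' k = Q k := if_pos ⟨j, hj⟩
      rw [h2, h3]
    have hyl : ∀ l, l ≠ k → y l = Q' l (x l) := by
      intro l hl
      have h1 : y l = (T x) l - inner ℂ (zg d ⟨k, θ⟩) x • (zg d ⟨k, θ⟩ : HH d) l := rfl
      have h2 : (zg d ⟨k, θ⟩ : HH d) l = 0 := lp.single_apply_ne _ _ _ hl
      rw [h1, h2, smul_zero, sub_zero, hT]
    have hyx : ∀ l, l ≠ k → ‖y l‖ ^ 2 ≤ ‖x l‖ ^ 2 := by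
      intro l hl
      rw [hyl l hl]
      apply pow_le_pow_left₀ (norm_nonneg _)
      calc _ ≤ ‖Q' l‖ * ‖x l‖ := (Q' l).le_opNorm _
        _ ≤ 1 * ‖x l‖ := mul_le_mul_of_nonneg_right (hQ' l) (norm_nonneg _)
        _ = _ := one_mul _
    have hy0 : ∀ l, l ≠ k → l ∉ Set.range a → ‖y l‖ ^ 2 = 0 := by
      intro l hl hla
      have h3 : Q' l = 0 := if_neg hla
      rw [hyl l hl, h3]
      simp
    apply HH_norm_le _ ε hε.le
    intro s
    have hs1 : ∑ l ∈ s, ‖y l‖ ^ 2 ≤ ∑ l ∈ Finset.range (k + 1), ‖y l‖ ^ 2 +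
        ∑ l ∈ s.filter (fun l => k < l), ‖y l‖ ^ 2 := by
      rw [← Finset.sum_union]
      · apply Finset.sum_le_sum_of_subset_of_nonneg
        · intro l hl
          rw [Finset.mem_union, Finset.mem_range, Finset.mem_filter]
          by_cases h : k < l
          · exact Or.inr ⟨hl, h⟩
          · exact Or.inl (by omega)
        · intro l _ _
          positivity
      · rw [Finset.disjoint_left]
        intro l hl hl'
        rw [Finset.mem_range] at hl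
        rw [Finset.mem_filter] at hl'
        omega
    have hs2 : ∑ l ∈ Finset.range k, ‖y l‖ ^ 2 ≤ ε ^ 2 / 4 + 1 / ((k : ℝ) + 1) := by
      have h1 : ∑ l ∈ Finset.range k, ‖y l‖ ^ 2 = ∑ l ∈ (Finset.range j).image a, ‖y l‖ ^ 2 := by
        symm
        apply Finset.sum_subset
        · intro l hl
          rw [Finset.mem_image] at hl
          obtain ⟨i, hi, rfl⟩ := hl
          rw [Finset.mem_range] at hi ⊢
          rw [← hj]
          exact ha hi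
        · intro l hl hl'
          rw [Finset.mem_range] at hl
          apply hy0 l (by omega)
          rintro ⟨i, rfl⟩
          apply hl'
          rw [Finset.mem_image]
          refine ⟨i, ?_, rfl⟩
          rw [Finset.mem_range]
          rw [← hj] at hl
          exact ha.lt_iff_lt.mp hl
      rw [h1, Finset.sum_image (fun i _ i' _ h => ha.injective h)]
      calc ∑ i ∈ Finset.range j, ‖y (a i)‖ ^ 2
          ≤ ∑ i ∈ Finset.range j, (μ k (a i) + 1 / ((k : ℝ) + 1) ^ 2) := by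
            apply Finset.sum_le_sum
            intro i hi
            rw [Finset.mem_range] at hi
            have h2 : a i < k := by rw [← hj]; exact ha hi
            exact (hyx (a i) (by omega)).trans ((hμ k θ hθD).2 (a i) h2).2
        _ = ∑ i ∈ Finset.range j, μ k (a i) + j * (1 / ((k : ℝ) + 1) ^ 2) := by
            rw [Finset.sum_add_distrib, Finset.sum_const, Finset.card_range, nsmul_eq_mul]
        _ ≤ ε ^ 2 / 4 + 1 / ((k : ℝ) + 1) := by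
            apply add_le_add
            · have := haμ j
              rw [hj] at this
              exact this
            · have h3 : (j : ℝ) ≤ (k : ℝ) + 1 := by
                have : (j : ℝ) ≤ k := by exact_mod_cast hjk
                linarith
              calc (j : ℝ) * (1 / ((k : ℝ) + 1) ^ 2) ≤ ((k : ℝ) + 1) * (1 / ((k : ℝ) + 1) ^ 2) :=
                    mul_le_mul_of_nonneg_right h3 (by positivity)
                _ = 1 / ((k : ℝ) + 1) := by field_simp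
    have hs3 : ‖y k‖ ^ 2 ≤ 1 / ((k : ℝ) + 1) := by
      rw [hyk]
      have h1 := (hμ k θ hθD).1
      have h2 : 1 / ((k : ℝ) + 1) ≤ 1 := by
        rw [div_le_one hkp]
        have : (0 : ℝ) ≤ k := Nat.cast_nonneg k
        linarith
      have h3 : (0 : ℝ) ≤ ‖Q k (x k) - inner ℂ (zz θ) (x k) • zz θ‖ := norm_nonneg _
      nlinarith [hek k]
    have hs4 : ∑ l ∈ s.filter (fun l => k < l), ‖y l‖ ^ 2 ≤ ε ^ 2 / 4 := by
      have h1 : ∑ l ∈ s.filter (fun l => k < l), ‖y l‖ ^ 2 =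
          ∑ l ∈ (s.filter (fun l => k < l)).filter (fun l => l ∈ Set.range a), ‖y l‖ ^ 2 := by
        symm
        apply Finset.sum_subset (Finset.filter_subset _ _)
        intro l hl hl'
        have h2 : k < l := (Finset.mem_filter.mp hl).2
        apply hy0 l (by omega)
        intro h3
        exact hl' (Finset.mem_filter.mpr ⟨hl, h3⟩)
      rw [h1]
      refine le_trans (Finset.sum_le_sum fun l hl => ?_) (hL k θ _ ?_)
      · have h2 : k < l := (Finset.mem_filter.mp (Finset.mem_filter.mp hl).1).2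
        exact hyx l (by omega)
      · intro l hl
        have h2 : k < l := (Finset.mem_filter.mp (Finset.mem_filter.mp hl).1).2
        obtain ⟨i, rfl⟩ := (Finset.mem_filter.mp hl).2
        rw [← hj] at h2
        have h3 : j + 1 ≤ i := ha.lt_iff_lt.mp h2
        have h4 := ha.monotone h3
        have h5 := haL j
        rw [hj] at h5
        omega
    rw [Finset.sum_range_succ] at hs1
    linarith

end H18.RX
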